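import Pool.Agent.H13.SSep

open TopologicalSpace

namespace Pool.Agent.Results.MP_67c6ba_gt.RealNot

/-- Strong separability of a topological group (written multiplicatively). -/
def SSeparable (G : Type) [TopologicalSpace G] [Group G] : Prop :=
  ∀ (H : Type) [TopologicalSpace H] [Group H] [IsTopologicalGroup H] [T2Space H],
    (∀ K : Subgroup H, IsClosed (K : Set H) → SeparableSpace K) →
    ∀ L : Subgroup (G × H), IsClosed (L : Set (G × H)) → SeparableSpace L

theorem real_not : ¬ SSeparable (Multiplicative ℝ) := by
  intro h
  obtain ⟨H, _, _, _, _, hH, L, hL, hn⟩ := Pool.Agent.H13.SSep.main (Multiplicative ℝ)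
    (MonoidHom.id _) continuous_id Function.surjective_id
  exact hn (h H hH L hL)

theorem result : ¬ SSeparable (Multiplicative ℝ) ∧
    ∃ (G : Type) (_ : TopologicalSpace G) (_ : Group G) (_ : IsTopologicalGroup G),
      SeparableSpace G ∧ MetrizableSpace G ∧ ¬ SSeparable G :=
  ⟨real_not, Multiplicative ℝ, inferInstance, inferInstance, inferInstance,
    inferInstanceAs (SeparableSpace ℝ), inferInstanceAs (MetrizableSpace ℝ), real_not⟩

end Pool.Agent.Results.MP_67c6ba_gt.RealNot
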